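import Mathlib

set_option autoImplicit false

/-!
Verified box arithmetic for the map `w ↦ w ^ 2 + 1/4` on the plane: every point with real part at
least `5/6` leaves the disc of radius `121/100`.
-/

namespace Pool.Agent.Cauliflower

/-- Forcing the evaluation of a natural number before passing it on. -/
def forceNat {α : Type} (n : ℕ) (k : ℕ → α) : α :=
  match n with
  | 0 => k 0
  | m + 1 => k (m + 1)

theorem forceNat_eq {α : Type} (n : ℕ) (k : ℕ → α) : forceNat n k = k n := by
  cases n <;> rfl

/-- Forcing the evaluation of an integer before passing it on. -/
def force {α : Type} (n : ℤ) (k : ℤ → α) : α :=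
  match n with
  | Int.ofNat m => forceNat m (fun m' => k (Int.ofNat m'))
  | Int.negSucc m => forceNat m (fun m' => k (Int.negSucc m'))

theorem force_eq {α : Type} (n : ℤ) (k : ℤ → α) : force n k = k n := by
  cases n with
  | ofNat m => exact forceNat_eq m (fun m' => k (Int.ofNat m'))
  | negSucc m => exact forceNat_eq m (fun m' => k (Int.negSucc m'))

/-- A lower bound for the absolute value on `[a, b]`. -/
def lo (a b : ℤ) : ℤ := max 0 (max a (-b))

/-- An upper bound for the absolute value on `[a, b]`. -/
def hi (a b : ℤ) : ℤ := max (-a) b

/-- Does every point of the box `[a,b] × [c,d]` (in units of `2^-20`) leave the disc of radius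
`121/100` after at most `n` steps? -/
def esc : ℕ → ℤ → ℤ → ℤ → ℤ → Bool
  | 0, _, _, _, _ => false
  | n + 1, a, b, c, d =>
    force (lo a b) fun p => force (lo c d) fun q =>
      if 1609806859141 ≤ p * p + q * q then true
      else if 1048576 ≤ b - a then false
      else if 1048576 ≤ d - c then false
      else
      (force (hi a b) fun r => force (hi c d) fun s =>
       force ((p * p - s * s) / 1048576 + 262144) fun a' =>
       force (-((-(r * r - q * q)) / 1048576) + 262144) fun b' =>
       force ((2 * min (min (a * c) (a * d)) (min (b * c) (b * d))) / 1048576) fun c' =>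
       force (-((-(2 * max (max (a * c) (a * d)) (max (b * c) (b * d)))) / 1048576)) fun d' =>
         esc n a' b' c' d')

/-- Subdivide until every box escapes. -/
def cover : ℕ → ℤ → ℤ → ℤ → ℤ → Bool
  | 0, a, b, c, d => esc 15 a b c d
  | n + 1, a, b, c, d =>
      if esc 15 a b c d then true
      else if d - c ≤ b - a then
        (force ((a + b) / 2) fun m => if cover n a m c d then cover n m b c d else false)
      else
        (force ((c + d) / 2) fun m => if cover n a b c m then cover n a b m d else false)

theorem cover_main : cover 26 873813 1310720 0 1310720 = true := by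
  decide +kernel

end Pool.Agent.Cauliflower
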