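import Pool.Agent.Cauliflower.Boxes

set_option autoImplicit false

namespace Pool.Agent.Cauliflower

/-- The map `w ↦ w ^ 2 + 1/4`. -/
noncomputable def g (w : ℂ) : ℂ := w ^ 2 + 1 / 4

theorem g_re (w : ℂ) : (g w).re = w.re * w.re - w.im * w.im + 1 / 4 := by
  simp only [g, pow_two, Complex.add_re, Complex.mul_re]
  norm_num

theorem g_im (w : ℂ) : (g w).im = 2 * (w.re * w.im) := by
  simp only [g, pow_two, Complex.add_im, Complex.mul_im]
  norm_num
  ring

theorem lo_le {a b : ℤ} {x : ℝ} (h1 : (a : ℝ) ≤ x) (h2 : x ≤ b) :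
    ((lo a b : ℤ) : ℝ) * ((lo a b : ℤ) : ℝ) ≤ x * x := by
  have h0 : (0 : ℝ) ≤ ((lo a b : ℤ) : ℝ) := by
    have : (0 : ℤ) ≤ lo a b := le_max_left _ _
    exact_mod_cast this
  have h3 : ((lo a b : ℤ) : ℝ) ≤ |x| := by
    unfold lo
    push_cast
    refine max_le (abs_nonneg x) (max_le ?_ ?_)
    · exact h1.trans (le_abs_self x)
    · have : -x ≤ |x| := neg_le_abs x
      linarith
  calc ((lo a b : ℤ) : ℝ) * ((lo a b : ℤ) : ℝ) ≤ |x| * |x| := mul_self_le_mul_self h0 h3
    _ = x * x := abs_mul_abs_self x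

theorem le_hi {a b : ℤ} {x : ℝ} (h1 : (a : ℝ) ≤ x) (h2 : x ≤ b) :
    x * x ≤ ((hi a b : ℤ) : ℝ) * ((hi a b : ℤ) : ℝ) := by
  have h3 : |x| ≤ ((hi a b : ℤ) : ℝ) := by
    unfold hi
    push_cast
    rw [abs_le]
    constructor
    · have : -(a : ℝ) ≤ max (-(a : ℝ)) b := le_max_left _ _
      linarith
    · exact h2.trans (le_max_right _ _)
  calc x * x = |x| * |x| := (abs_mul_abs_self x).symm
    _ ≤ _ := mul_self_le_mul_self (abs_nonneg x) h3

theorem affine_min {a b : ℤ} {x : ℝ} (y : ℝ) (h1 : (a : ℝ) ≤ x) (h2 : x ≤ b) :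
    min ((a : ℝ) * y) (b * y) ≤ x * y := by
  rcases le_total 0 y with hy | hy
  · exact (min_le_left _ _).trans (mul_le_mul_of_nonneg_right h1 hy)
  · exact (min_le_right _ _).trans (mul_le_mul_of_nonpos_right h2 hy)

theorem affine_max {a b : ℤ} {x : ℝ} (y : ℝ) (h1 : (a : ℝ) ≤ x) (h2 : x ≤ b) :
    x * y ≤ max ((a : ℝ) * y) (b * y) := by
  rcases le_total 0 y with hy | hy
  · exact (mul_le_mul_of_nonneg_right h2 hy).trans (le_max_right _ _)
  · exact (mul_le_mul_of_nonpos_right h1 hy).trans (le_max_left _ _)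

theorem prod_min {a b c d : ℤ} {x y : ℝ} (h1 : (a : ℝ) ≤ x) (h2 : x ≤ b) (h3 : (c : ℝ) ≤ y)
    (h4 : y ≤ d) :
    ((min (min (a * c) (a * d)) (min (b * c) (b * d)) : ℤ) : ℝ) ≤ x * y := by
  push_cast
  have e1 : min ((a : ℝ) * c) (a * d) ≤ a * y := by
    have := affine_min (a := c) (b := d) (x := y) (a : ℝ) h3 h4
    simpa [mul_comm] using this
  have e2 : min ((b : ℝ) * c) (b * d) ≤ b * y := by
    have := affine_min (a := c) (b := d) (x := y) (b : ℝ) h3 h4
    simpa [mul_comm] using this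
  exact (min_le_min e1 e2).trans (affine_min y h1 h2)

theorem prod_max {a b c d : ℤ} {x y : ℝ} (h1 : (a : ℝ) ≤ x) (h2 : x ≤ b) (h3 : (c : ℝ) ≤ y)
    (h4 : y ≤ d) :
    x * y ≤ ((max (max (a * c) (a * d)) (max (b * c) (b * d)) : ℤ) : ℝ) := by
  push_cast
  have e1 : (a : ℝ) * y ≤ max ((a : ℝ) * c) (a * d) := by
    have := affine_max (a := c) (b := d) (x := y) (a : ℝ) h3 h4
    simpa [mul_comm] using this
  have e2 : (b : ℝ) * y ≤ max ((b : ℝ) * c) (b * d) := by
    have := affine_max (a := c) (b := d) (x := y) (b : ℝ) h3 h4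
    simpa [mul_comm] using this
  exact (affine_max y h1 h2).trans (max_le_max e1 e2)

theorem div_le_real (n : ℤ) : ((n / 1048576 : ℤ) : ℝ) ≤ (n : ℝ) / 1048576 := by
  have h : (n / 1048576) * 1048576 ≤ n := Int.ediv_mul_le n (by norm_num)
  have h' : ((n / 1048576 : ℤ) : ℝ) * 1048576 ≤ (n : ℝ) := by exact_mod_cast h
  rw [le_div_iff₀ (by norm_num)]
  exact h'

theorem real_le_neg_div (n : ℤ) : (n : ℝ) / 1048576 ≤ ((-((-n) / 1048576) : ℤ) : ℝ) := by
  have h := div_le_real (-n)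
  push_cast at h ⊢
  have : -(n : ℝ) / 1048576 = -((n : ℝ) / 1048576) := by ring
  linarith

/-- The point `w` lies in the box `[a,b] × [c,d]` measured in units of `2^-20`. -/
def InBox (a b c d : ℤ) (w : ℂ) : Prop :=
  (a : ℝ) ≤ 1048576 * w.re ∧ 1048576 * w.re ≤ b ∧ (c : ℝ) ≤ 1048576 * w.im ∧ 1048576 * w.im ≤ d

theorem norm_of_sq {w : ℂ} (h : (1609806859141 : ℝ) ≤
    (1048576 * w.re) * (1048576 * w.re) + (1048576 * w.im) * (1048576 * w.im)) :
    121 / 100 ≤ ‖w‖ := by
  have h1 : ‖w‖ ^ 2 = w.re * w.re + w.im * w.im := by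
    rw [← Complex.normSq_eq_norm_sq, Complex.normSq_apply]
  have h2 : (121 / 100 : ℝ) ^ 2 ≤ ‖w‖ ^ 2 := by
    rw [h1]; norm_num; nlinarith
  exact (abs_le_of_sq_le_sq' h2 (norm_nonneg w)).2

theorem esc_sound (n : ℕ) : ∀ (a b c d : ℤ) (w : ℂ), esc n a b c d = true → InBox a b c d w →
    ∃ k : ℕ, 121 / 100 ≤ ‖g^[k] w‖ := by
  induction n with
  | zero => intro a b c d w h; simp [esc] at h
  | succ n ih =>
    intro a b c d w h hw
    obtain ⟨h1, h2, h3, h4⟩ := hw
    simp only [esc, force_eq] at h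
    split_ifs at h with c1 c2 c3
    · refine ⟨0, ?_⟩
      apply norm_of_sq
      have e1 := lo_le h1 h2
      have e2 := lo_le h3 h4
      have e3 : (1609806859141 : ℝ) ≤ ((lo a b : ℤ) : ℝ) * ((lo a b : ℤ) : ℝ) +
          ((lo c d : ℤ) : ℝ) * ((lo c d : ℤ) : ℝ) := by exact_mod_cast c1
      simp only [Function.iterate_zero, id]
      linarith
    · have hlo1 := lo_le h1 h2
      have hlo2 := lo_le h3 h4
      have hhi1 := le_hi h1 h2
      have hhi2 := le_hi h3 h4
      have hmin := prod_min h1 h2 h3 h4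
      have hmax := prod_max h1 h2 h3 h4
      have key := ih _ _ _ _ (g w) h ?_
      · obtain ⟨k, hk⟩ := key
        exact ⟨k + 1, by simpa [Function.iterate_succ] using hk⟩
      · refine ⟨?_, ?_, ?_, ?_⟩
        · have := div_le_real (lo a b * lo a b - hi c d * hi c d)
          rw [g_re]
          push_cast at this ⊢
          nlinarith
        · have := real_le_neg_div (hi a b * hi a b - lo c d * lo c d)
          rw [g_re]
          push_cast at this ⊢
          nlinarith
        · have := div_le_real (2 * min (min (a * c) (a * d)) (min (b * c) (b * d)))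
          rw [g_im]
          push_cast at this hmin ⊢
          nlinarith
        · have := real_le_neg_div (2 * max (max (a * c) (a * d)) (max (b * c) (b * d)))
          rw [g_im]
          push_cast at this hmax ⊢
          nlinarith

theorem cover_sound (n : ℕ) : ∀ (a b c d : ℤ) (w : ℂ), cover n a b c d = true →
    InBox a b c d w → ∃ k : ℕ, 121 / 100 ≤ ‖g^[k] w‖ := by
  induction n with
  | zero => intro a b c d w h hw; exact esc_sound 15 a b c d w (by simpa [cover] using h) hw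
  | succ n ih =>
    intro a b c d w h hw
    simp only [cover, force_eq] at h
    split_ifs at h with c1 c2 c3 c4
    · exact esc_sound 15 a b c d w c1 hw
    · obtain ⟨h1, h2, h3, h4⟩ := hw
      rcases le_total (1048576 * w.re) (((a + b) / 2 : ℤ) : ℝ) with hm | hm
      · exact ih _ _ _ _ w c3 ⟨h1, hm, h3, h4⟩
      · exact ih _ _ _ _ w h ⟨hm, h2, h3, h4⟩
    · obtain ⟨h1, h2, h3, h4⟩ := hw
      rcases le_total (1048576 * w.im) (((c + d) / 2 : ℤ) : ℝ) with hm | hm
      · exact ih _ _ _ _ w c4 ⟨h1, h2, h3, hm⟩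
      · exact ih _ _ _ _ w h ⟨h1, h2, hm, h4⟩

theorem escape_pos {w : ℂ} (h : 5 / 6 ≤ w.re) (hi : 0 ≤ w.im) : ∃ k : ℕ, 121 / 100 ≤ ‖g^[k] w‖ := by
  by_cases hn : 121 / 100 ≤ ‖w‖
  · exact ⟨0, by simpa using hn⟩
  · push Not at hn
    have h1 : w.re ≤ ‖w‖ := Complex.re_le_norm w
    have h2 : |w.im| ≤ ‖w‖ := Complex.abs_im_le_norm w
    have h3 : w.im ≤ |w.im| := le_abs_self _
    refine cover_sound 26 873813 1310720 0 1310720 w cover_main ⟨?_, ?_, ?_, ?_⟩
    · push_cast; linarith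
    · push_cast; linarith
    · push_cast; linarith
    · push_cast; linarith

theorem g_conj (w : ℂ) : g ((starRingEnd ℂ) w) = (starRingEnd ℂ) (g w) := by
  simp only [g, map_add, map_pow, map_div₀, map_one, map_ofNat]

theorem g_iter_conj (k : ℕ) (w : ℂ) : g^[k] ((starRingEnd ℂ) w) = (starRingEnd ℂ) (g^[k] w) := by
  induction k generalizing w with
  | zero => simp
  | succ k ih => rw [Function.iterate_succ_apply, Function.iterate_succ_apply, g_conj, ih]

theorem escape {w : ℂ} (h : 5 / 6 ≤ w.re) : ∃ k : ℕ, 121 / 100 ≤ ‖g^[k] w‖ := by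
  rcases le_total 0 w.im with hi | hi
  · exact escape_pos h hi
  · obtain ⟨k, hk⟩ := escape_pos (w := (starRingEnd ℂ) w) (by simpa using h) (by simpa using hi)
    refine ⟨k, ?_⟩
    rw [g_iter_conj] at hk
    simpa using hk

theorem norm_lt_g {w : ℂ} (h : 121 / 100 ≤ ‖w‖) : ‖w‖ < ‖g w‖ := by
  have h1 : ‖w ^ 2‖ ≤ ‖g w‖ + ‖(1 / 4 : ℂ)‖ := by
    have : w ^ 2 = g w - 1 / 4 := by simp [g]
    rw [this]
    exact norm_sub_le _ _
  have h2 : ‖(1 / 4 : ℂ)‖ = 1 / 4 := by norm_num
  rw [norm_pow, h2] at h1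
  nlinarith

theorem strictMono_of_escape {w : ℂ} (h : 121 / 100 ≤ ‖w‖) :
    StrictMono (fun n : ℕ => ‖g^[n] w‖) := by
  have h0 : ∀ n : ℕ, 121 / 100 ≤ ‖g^[n] w‖ := by
    intro n
    induction n with
    | zero => simpa using h
    | succ n ih =>
      rw [Function.iterate_succ_apply']
      exact ih.trans (norm_lt_g ih).le
  apply strictMono_nat_of_lt_succ
  intro n
  rw [Function.iterate_succ_apply']
  exact norm_lt_g (h0 n)

/-- A point with real part at least `5/6` has an infinite orbit under `w ↦ w ^ 2 + 1/4`. -/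
theorem orbit_infinite {w : ℂ} (h : 5 / 6 ≤ w.re) :
    (Set.range fun n : ℕ => g^[n] w).Infinite := by
  obtain ⟨k, hk⟩ := escape h
  have hm := strictMono_of_escape hk
  have hinj : Function.Injective (fun n : ℕ => g^[n + k] w) := by
    intro m n hmn
    apply hm.injective
    simp only at hmn ⊢
    rw [← Function.iterate_add_apply, ← Function.iterate_add_apply, hmn]
  refine (Set.infinite_range_of_injective hinj).mono ?_
  rintro _ ⟨n, rfl⟩
  exact ⟨n + k, rfl⟩

theorem semiconj_shift (n : ℕ) (z : ℂ) :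
    g^[n] (z + 1 / 2) = (fun z : ℂ => z ^ 2 + z)^[n] z + 1 / 2 := by
  induction n generalizing z with
  | zero => simp
  | succ n ih =>
    rw [Function.iterate_succ_apply, Function.iterate_succ_apply, ← ih]
    congr 1
    simp only [g]
    ring

/-- A complex number whose orbit under `z ↦ z ^ 2 + z` is finite has real part below `1/3`. -/
theorem re_lt_of_finite_orbit {z : ℂ}
    (h : (Set.range fun n : ℕ => (fun z : ℂ => z ^ 2 + z)^[n] z).Finite) : z.re < 1 / 3 := by
  by_contra hz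
  push Not at hz
  have h1 : (5 / 6 : ℝ) ≤ (z + 1 / 2).re := by
    have : (z + 1 / 2).re = z.re + 1 / 2 := by simp
    rw [this]; linarith
  apply orbit_infinite h1
  have : (Set.range fun n : ℕ => g^[n] (z + 1 / 2)) =
      (fun y : ℂ => y + 1 / 2) '' (Set.range fun n : ℕ => (fun z : ℂ => z ^ 2 + z)^[n] z) := by
    rw [← Set.range_comp]
    congr 1
    funext n
    exact semiconj_shift n z
  rw [this]
  exact h.image _

end Pool.Agent.Cauliflower
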